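import Pool.Agent.Helper83.CB.Defs

open Filter Topology

namespace Pool.Agent.Helper83.CB

theorem LIM_zero {V : Type*} [AddCommGroup V] [Module ℂ V] {N : V → ℝ} (h : IsNorm N) :
    N 0 = 0 := by
  have := h.smul 0 0
  simpa using this

theorem LIM_neg {V : Type*} [AddCommGroup V] [Module ℂ V] {N : V → ℝ} (h : IsNorm N) (x : V) :
    N (-x) = N x := by
  have := h.smul (-1) x
  simpa using this

theorem LIM_nonneg {V : Type*} [AddCommGroup V] [Module ℂ V] {N : V → ℝ} (h : IsNorm N) (x : V) :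
    0 ≤ N x := by
  by_cases hx : x = 0
  · rw [hx, LIM_zero h]
  · exact (h.pos x hx).le

theorem LIM_sum {V ι : Type*} [AddCommGroup V] [Module ℂ V] {N : V → ℝ} (h : IsNorm N)
    (s : Finset ι) (f : ι → V) : N (∑ i ∈ s, f i) ≤ ∑ i ∈ s, N (f i) := by
  classical
  induction s using Finset.induction_on with
  | empty => simp [LIM_zero h]
  | insert a s ha ih =>
    rw [Finset.sum_insert ha, Finset.sum_insert ha]
    exact (h.add _ _).trans (add_le_add le_rfl ih)

theorem LIM_bound {m : ℕ} {N : E m → ℝ} (h : IsNorm N) : ∃ C : ℝ, 0 ≤ C ∧ ∀ x, N x ≤ C * ‖x‖ := by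
  let b := EuclideanSpace.basisFun (Fin m) ℂ
  refine ⟨∑ i, N (b i), Finset.sum_nonneg fun i _ => LIM_nonneg h _, fun x => ?_⟩
  calc N x = N (∑ i, b.repr x i • b i) := by rw [b.sum_repr]
    _ ≤ ∑ i, N (b.repr x i • b i) := LIM_sum h _ _
    _ = ∑ i, ‖b.repr x i‖ * N (b i) := by simp only [h.smul]
    _ ≤ ∑ i, ‖x‖ * N (b i) := by
        apply Finset.sum_le_sum
        intro i _
        apply mul_le_mul_of_nonneg_right _ (LIM_nonneg h _)
        calc ‖b.repr x i‖ ≤ ‖b.repr x‖ := PiLp.norm_apply_le _ _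
          _ = ‖x‖ := b.repr.norm_map x
    _ = (∑ i, N (b i)) * ‖x‖ := by rw [← Finset.mul_sum, mul_comm]

theorem LIM_cont {m : ℕ} {N : E m → ℝ} (h : IsNorm N) : Continuous N := by
  obtain ⟨C, hC, hb⟩ := LIM_bound h
  have h1 : ∀ x y, |N x - N y| ≤ C * ‖x - y‖ := by
    intro x y
    have h2 : N x ≤ N (x - y) + N y := by
      have := h.add (x - y) y
      rwa [sub_add_cancel] at this
    have h3 : N y ≤ N (x - y) + N x := by
      have := h.add (y - x) x
      rw [sub_add_cancel] at this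
      have h4 : N (y - x) = N (x - y) := by rw [← LIM_neg h, neg_sub]
      rwa [h4] at this
    have h4 := hb (x - y)
    rw [abs_le]
    constructor <;> linarith
  have h5 : LipschitzWith C.toNNReal N := by
    apply LipschitzWith.of_dist_le_mul
    intro x y
    rw [Real.dist_eq, dist_eq_norm, Real.coe_toNNReal C hC]
    exact h1 x y
  exact h5.continuous

theorem st_LIM (hG1 : ST_G1) (hCONV : ST_CONV) : ST_LIM := by
  intro m N hN P A P0 A0 hP hA hrot
  obtain ⟨hc1, hc2, hc3⟩ := hCONV m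
  choose C hC using hrot
  obtain ⟨hPd, hPs, hPa, hPc, -⟩ := hc2 P P0 hP
  obtain ⟨hAd, hAs, hAa, hAc, -⟩ := hc2 A A0 hA
  have hsum : ∀ j, Module.finrank ℂ (A j) + Module.finrank ℂ (C j) =
      Module.finrank ℂ (P j) := by
    intro j
    have := Submodule.finrank_sup_add_finrank_inf_eq (A j) (C j)
    rw [(hC j).inf, (hC j).sup, finrank_bot, add_zero] at this
    exact this.symm
  have hCd : ∀ j, Module.finrank ℂ (C j) = Module.finrank ℂ P0 - Module.finrank ℂ A0 := by
    intro j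
    have := hsum j
    rw [hPd j, hAd j] at this
    omega
  obtain ⟨φ, hφ, C0, hC0⟩ := hc1 _ C hCd
  obtain ⟨hCd', hCs, hCa, hCc, -⟩ := hc2 _ C0 hC0
  obtain ⟨-, -, hPa', hPc', -⟩ := hc2 _ P0 (hPs φ hφ)
  obtain ⟨-, -, hAa', hAc', -⟩ := hc2 _ A0 (hAs φ hφ)
  have hcont := LIM_cont hN
  have hinf : A0 ⊓ C0 = ⊥ := by
    rw [eq_bot_iff]
    rintro x ⟨hxA, hxC⟩
    obtain ⟨a, ha, hax⟩ := hAa' x hxA
    obtain ⟨c, hc, hcx⟩ := hCa x hxC
    have h1 : ∀ j, N (a j) ≤ N (c j - a j) := by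
      intro j
      have := (hG1 m N hN _ _ _ (hC (φ j)) (-a j) (neg_mem (ha j)) (c j) (hc j)).1
      rw [LIM_neg hN] at this
      rwa [neg_add_eq_sub] at this
    have h2 : Tendsto (fun j => N (a j)) atTop (𝓝 (N x)) := (hcont.tendsto x).comp hax
    have h3 : Tendsto (fun j => N (c j - a j)) atTop (𝓝 (N (x - x))) :=
      (hcont.tendsto _).comp (hcx.sub hax)
    rw [sub_self, LIM_zero hN] at h3
    have h4 := le_of_tendsto_of_tendsto' h2 h3 h1
    by_contra hx
    exact absurd (hN.pos x hx) (not_lt.mpr h4)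
  have hle : A0 ⊔ C0 ≤ P0 := by
    apply sup_le
    · intro x hx
      obtain ⟨a, ha, hax⟩ := hAa' x hx
      refine hPc' a x (fun j => ?_) hax
      change a j ∈ P (φ j)
      rw [← (hC (φ j)).sup]
      exact (le_sup_left : A (φ j) ≤ _) (ha j)
    · intro x hx
      obtain ⟨c, hc, hcx⟩ := hCa x hx
      refine hPc' c x (fun j => ?_) hcx
      change c j ∈ P (φ j)
      rw [← (hC (φ j)).sup]
      exact (le_sup_right : C (φ j) ≤ _) (hc j)
  have hsup : A0 ⊔ C0 = P0 := by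
    apply Submodule.eq_of_le_of_finrank_eq hle
    have h1 := Submodule.finrank_sup_add_finrank_inf_eq A0 C0
    rw [hinf, finrank_bot, add_zero] at h1
    rw [h1, ← hAd (φ 0), ← hCd' 0, ← hPd (φ 0)]
    exact hsum (φ 0)
  refine ⟨C0, hinf, hsup, ?_, ?_⟩
  · intro a ha b hb
    obtain ⟨a', ha', hax⟩ := hAa' a ha
    obtain ⟨b', hb', hbx⟩ := hAa' b hb
    have h1 : ∀ j, N (a' j + b' j) ^ 2 + N (a' j - b' j) ^ 2 =
        2 * (N (a' j) ^ 2 + N (b' j) ^ 2) := fun j =>
      (hC (φ j)).hilb (a' j) (ha' j) (b' j) (hb' j)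
    have h2 : Tendsto (fun j => N (a' j + b' j) ^ 2 + N (a' j - b' j) ^ 2) atTop
        (𝓝 (N (a + b) ^ 2 + N (a - b) ^ 2)) :=
      (((hcont.tendsto _).comp (hax.add hbx)).pow 2).add
        (((hcont.tendsto _).comp (hax.sub hbx)).pow 2)
    have h3 : Tendsto (fun j => 2 * (N (a' j) ^ 2 + N (b' j) ^ 2)) atTop
        (𝓝 (2 * (N a ^ 2 + N b ^ 2))) :=
      ((((hcont.tendsto _).comp hax).pow 2).add (((hcont.tendsto _).comp hbx).pow 2)).const_mul 2
    exact tendsto_nhds_unique (h2.congr h1) h3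
  · intro a ha a' ha' c hc haa
    by_cases ha0 : a' = 0
    · have : a = 0 := by
        by_contra h
        have h1 := hN.pos a h
        rw [haa, ha0, LIM_zero hN] at h1
        exact lt_irrefl _ h1
      rw [this, ha0]
    have hpos := hN.pos a' ha0
    obtain ⟨x, hx, hxa⟩ := hAa' a ha
    obtain ⟨x', hx', hxa'⟩ := hAa' a' ha'
    obtain ⟨z, hz, hzc⟩ := hCa c hc
    have hNx : Tendsto (fun j => N (x j)) atTop (𝓝 (N a)) := (hcont.tendsto _).comp hxa
    have hNx' : Tendsto (fun j => N (x' j)) atTop (𝓝 (N a')) := (hcont.tendsto _).comp hxa'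
    have hr : Tendsto (fun j => N (x j) / N (x' j)) atTop (𝓝 1) := by
      have := hNx.div hNx' hpos.ne'
      rwa [haa, div_self hpos.ne'] at this
    have hw : Tendsto (fun j => ((N (x j) / N (x' j) : ℝ) : ℂ) • x' j) atTop (𝓝 a') := by
      have h1 : Tendsto (fun j => ((N (x j) / N (x' j) : ℝ) : ℂ)) atTop (𝓝 ((1 : ℝ) : ℂ)) :=
        (Complex.continuous_ofReal.tendsto _).comp hr
      have h2 := h1.smul hxa'
      simpa using h2
    have hev : ∀ᶠ j in atTop, N (x j + z j) =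
        N (((N (x j) / N (x' j) : ℝ) : ℂ) • x' j + z j) := by
      filter_upwards [hNx'.eventually (lt_mem_nhds hpos)] with j hj
      apply (hC (φ j)).rot (x j) (hx j) _ (Submodule.smul_mem _ _ (hx' j)) (z j) (hz j)
      rw [hN.smul, Complex.norm_real, Real.norm_eq_abs, abs_of_nonneg
        (div_nonneg (LIM_nonneg hN _) hj.le), div_mul_cancel₀ _ hj.ne']
    have h2 : Tendsto (fun j => N (x j + z j)) atTop (𝓝 (N (a + c))) :=
      (hcont.tendsto _).comp (hxa.add hzc)
    have h3 : Tendsto (fun j => N (((N (x j) / N (x' j) : ℝ) : ℂ) • x' j + z j)) atTop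
        (𝓝 (N (a' + c))) := (hcont.tendsto _).comp (hw.add hzc)
    exact tendsto_nhds_unique (h2.congr' hev) h3

end Pool.Agent.Helper83.CB
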